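import Mathlib

set_option autoImplicit false

namespace Pool.Agent.Results.MP_f85c9e_gt.Down

open Set Filter Topology

/-- Selectively highly divergent spaces. -/
def SHD (X : Type*) [TopologicalSpace X] : Prop :=
  ∀ U : ℕ → Set X, (∀ n, IsOpen (U n) ∧ (U n).Nonempty) → ∃ x : ℕ → X, (∀ n, x n ∈ U n) ∧
    ∀ φ : ℕ → ℕ, StrictMono φ → ∀ p : X, ¬ Tendsto (x ∘ φ) atTop (𝓝 p)

/-- Non-empty finite subsets of `X`. -/
def PR (X : Type*) := {A : Set X // A.Finite ∧ A.Nonempty}

/-- The set `[F, V]`. -/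
def box {X : Type*} (F : PR X) (V : Set X) : Set (PR X) := {H | F.1 ⊆ H.1 ∧ H.1 ⊆ V}

/-- The Pixley-Roy topology. -/
instance {X : Type*} [TopologicalSpace X] : TopologicalSpace (PR X) where
  IsOpen W := ∀ F ∈ W, ∃ V : Set X, IsOpen V ∧ F.1 ⊆ V ∧ box F V ⊆ W
  isOpen_univ := fun _ _ => ⟨univ, isOpen_univ, subset_univ _, subset_univ _⟩
  isOpen_inter := by
    intro s t hs ht F hF
    obtain ⟨V, a, b, c⟩ := hs F hF.1
    obtain ⟨V', a', b', c'⟩ := ht F hF.2
    exact ⟨V ∩ V', a.inter a', subset_inter b b', fun H h =>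
      ⟨c ⟨h.1, h.2.trans inter_subset_left⟩, c' ⟨h.1, h.2.trans inter_subset_right⟩⟩⟩
  isOpen_sUnion := by
    rintro S hS F ⟨W, hW, hF⟩
    obtain ⟨V, a, b, c⟩ := hS W hW F hF
    exact ⟨V, a, b, fun H h => ⟨W, hW, c h⟩⟩

lemma box_open {X : Type*} [TopologicalSpace X] (F : PR X) {V : Set X} (hV : IsOpen V) :
    IsOpen (box F V) := fun _ hH => ⟨V, hV, hH.2, fun _ h => ⟨hH.1.trans h.1, h.2⟩⟩

theorem result : ∃ (X : Type) (_ : TopologicalSpace X), T1Space X ∧ SHD (PR X) ∧ ¬ SHD X := by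
  refine ⟨CofiniteTopology ℝ, inferInstance, inferInstance, fun U hU => ?_, fun h => ?_⟩
  · choose F hF using fun n => (hU n).2
    choose V hV hFV hb using fun n => (hU n).1 (F n) (hF n)
    have hc : ∀ n, (V n)ᶜ.Finite := fun n =>
      CofiniteTopology.isOpen_iff.1 (hV n) ((F n).2.2.mono (hFV n))
    have hi : (⋃ n, (V n)ᶜ)ᶜ.Infinite := by
      intro hf
      have h1 : (⋃ n, (V n)ᶜ).Countable := countable_iUnion fun n => (hc n).countable
      have h2 := h1.union hf.countable
      rw [union_compl_self] at h2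
      haveI := countable_univ_iff.1 h2
      exact not_countable (α := ℝ) (Countable.of_equiv _ CofiniteTopology.of.symm)
    let z := hi.natEmbedding
    have hz : ∀ j n, (z j).1 ∈ V n := fun j n => by
      by_contra hh
      exact (z j).2 (mem_iUnion.2 ⟨n, hh⟩)
    refine ⟨fun n => ⟨(F n).1 ∪ (fun j => (z j).1) '' Iic n,
      (F n).2.1.union ((finite_Iic n).image _), (F n).2.2.mono subset_union_left⟩,
      fun n => hb n ⟨subset_union_left, union_subset (hFV n) ?_⟩, fun φ hφ H hH => ?_⟩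
    · rintro _ ⟨j, -, rfl⟩
      exact hz j n
    · have hinf : (range fun j => (z j).1).Infinite :=
        infinite_range_of_injective (Subtype.val_injective.comp z.injective)
      obtain ⟨_, ⟨j, rfl⟩, hj⟩ := hinf.exists_notMem_finite H.2.1
      have := hH.eventually ((box_open H (isOpen_compl_singleton (x := (z j).1))).mem_nhds
        ⟨Subset.rfl, subset_compl_singleton_iff.2 hj⟩)
      obtain ⟨n, hn, hn'⟩ := (this.and (eventually_ge_atTop j)).exists
      exact hn.2 (Or.inr ⟨j, hn'.trans (hφ.id_le n), rfl⟩) rfl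
  · obtain ⟨x, -, hd⟩ := h (fun _ => univ) (fun _ => ⟨isOpen_univ, univ_nonempty⟩)
    by_cases hc : ∃ p, ∃ᶠ n in atTop, x n = p
    · obtain ⟨p, hp⟩ := hc
      obtain ⟨φ, hφ, e⟩ := extraction_of_frequently_atTop hp
      exact hd φ hφ p (tendsto_const_nhds.congr fun n => (e n).symm)
    · push Not at hc
      refine hd id strictMono_id (x 0) ?_
      rw [(nhds_basis_opens _).tendsto_right_iff]
      rintro W ⟨h0, hW⟩
      have hf := CofiniteTopology.isOpen_iff.1 hW ⟨_, h0⟩
      filter_upwards [(eventually_all_finite hf).2 fun p _ => hc p] with n hn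
      by_contra hh
      exact hn _ hh rfl

end Pool.Agent.Results.MP_f85c9e_gt.Down
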